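import Pool.Agent.H94.ES3

set_option autoImplicit false

namespace Pool.Agent.Results.MP_74ce82_an.Bounds
open Pool.Agent.H94.ES

theorem result (n : ℕ) (hn : 1 ≤ n) (c : ℝ) (h : ∀ x : ℝ, cnt n x = n ↔ c ≤ x) :
    2 * (n : ℝ) ^ 2 / Real.pi < c ^ (1 / (2 * (n : ℝ))) ∧
      c ^ (1 / (2 * (n : ℝ))) < n / Real.sin (Real.pi / (2 * n)) := by
  have n1 : (1 : ℝ) ≤ n := by exact_mod_cast hn
  have a := lower hn h
  have c0 : 0 < c := lt_trans (by positivity) a
  have s0 : 0 < Real.sin (Real.pi / (2 * n)) := Real.sin_pos_of_pos_of_lt_pi (by positivity)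
    (div_lt_self Real.pi_pos (by linarith))
  rw [one_div, Real.lt_rpow_inv_iff_of_pos (by positivity) c0.le (by positivity),
    Real.rpow_inv_lt_iff_of_pos c0.le (by positivity) (by positivity)]
  exact_mod_cast And.intro a (upper hn h)

end Pool.Agent.Results.MP_74ce82_an.Bounds
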